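import Mathlib

set_option autoImplicit false

namespace Pool.Agent.H.MP_10a497_al

variable {G X : Type} [Group G] [MetricSpace X] [MulAction G X] {δ : ℝ}
  (iso : ∀ (h : G) (x y : X), dist (h • x) (h • y) = dist x y)
  (hyp : ∀ x y z w : X,
    dist x y + dist z w ≤ max (dist x z + dist y w) (dist x w + dist y z) + 2 * δ)

include iso in
lemma dd (g h : G) (x y : X) : dist (g • x) (h • y) = dist x ((g⁻¹ * h) • y) := by
  rw [← iso g⁻¹, inv_smul_smul, mul_smul]

include iso in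
lemma dinv (g : G) (x : X) : dist x (g⁻¹ • x) = dist x (g • x) := by
  rw [← iso g, smul_inv_smul, dist_comm]

include iso in
lemma dp (a : G) (x : X) (i j : ℕ) :
    dist (a ^ i • x) (a ^ (i + j) • x) = dist x (a ^ j • x) := by
  rw [pow_add, mul_smul, iso]

include iso hyp in
lemma step (a : G) (x : X) {η : ℝ} (h0 : 0 < η)
    (h : η + dist x (a • x) + 2 * δ ≤ dist x (a ^ 2 • x)) (n : ℕ) :
    dist x (a ^ n • x) + η ≤ dist x (a ^ (n + 1) • x) := by
  have hδ : 0 ≤ δ := by simpa using hyp x x x x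
  have h2 : dist x (a ^ 2 • x) ≤ dist x (a • x) + dist x (a • x) := by
    have := dist_triangle x (a • x) (a ^ 2 • x)
    rwa [pow_two, mul_smul, iso, ← mul_smul, ← pow_two] at this
  induction n with
  | zero => simp; linarith
  | succ n ih =>
    have h1 := hyp x (a ^ (n + 1) • x) (a ^ n • x) (a ^ (n + 1 + 1) • x)
    rw [show n + 1 + 1 = n + 2 from rfl, dp iso, show n + 2 = n + 1 + 1 from rfl, dp iso,
      dist_comm (a ^ (n + 1) • x), dp iso, pow_one] at h1
    rcases le_max_iff.1 (sub_le_iff_le_add.2 h1) with h | h <;> linarith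

include iso hyp in
lemma lin (a : G) (x : X) {η : ℝ} (h0 : 0 < η)
    (h : η + dist x (a • x) + 2 * δ ≤ dist x (a ^ 2 • x)) (n : ℕ) :
    η * n ≤ dist x (a ^ n • x) := by
  induction n with
  | zero => simp
  | succ n ih => push_cast; linarith [step iso hyp a x h0 h n]

lemma good (g : G) (x : X) {c : ℝ} (hc : 0 < c) (h : ∀ n : ℕ, c * n ≤ dist x (g ^ n • x)) (M : ℝ) :
    ∃ k : ℕ, M + dist x (g ^ k • x) ≤ dist x ((g ^ k) ^ 2 • x) := by
  by_contra! hn
  have h1 : ∀ j : ℕ, dist x (g ^ 2 ^ j • x) ≤ dist x (g • x) + M * j := fun j => by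
    induction j with
    | zero => simp
    | succ j ih =>
      have := hn (2 ^ j)
      rw [← pow_mul, ← pow_succ] at this
      push_cast; linarith
  obtain ⟨j, hj⟩ := exists_nat_gt ((dist x (g • x) + |M|) / c)
  rw [div_lt_iff₀ hc] at hj
  have h2 := h (2 ^ (j + 1 + (j + 1)))
  have h3 := h1 (j + 1 + (j + 1))
  have h4 : ((2 * (j + 1) ^ 2 : ℕ) : ℝ) ≤ (2 ^ (j + 1 + (j + 1)) : ℕ) := by
    have := Nat.two_mul_sq_add_one_le_two_pow_two_mul (j + 1)
    rw [two_mul (j + 1)] at this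
    exact_mod_cast (Nat.le_succ _).trans this
  have h5 := le_abs_self M
  have h6 := abs_nonneg M
  have h7 := dist_nonneg (x := x) (y := g • x)
  have h8 : (0 : ℝ) ≤ j := j.cast_nonneg
  push_cast at h2 h3 h4
  nlinarith [mul_le_mul_of_nonneg_left h4 hc.le, mul_le_mul_of_nonneg_right h5 h8,
    mul_le_mul_of_nonneg_right hj.le h8, mul_nonneg h7 h8]

variable (a : G) (x : X) (ha : 2 * δ + 1 + dist x (a • x) + 2 * δ ≤ dist x (a ^ 2 • x))

include iso hyp ha in
lemma add (i j : ℕ) : dist x (a ^ i • x) + dist x (a ^ j • x) ≤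
    dist x (a ^ (i + j) • x) + (dist x (a • x) + 2 * δ) := by
  have hδ : 0 ≤ δ := by simpa using hyp x x x x
  rcases i with _ | i
  · simp; positivity
  have h1 := hyp (a ^ i • x) (a ^ (i + 1 + j) • x) x (a ^ (i + 1) • x)
  rw [dist_comm (a ^ (i + 1 + j) • x), dp iso, dp iso, add_assoc i, dp iso, add_comm 1 j,
    dist_comm _ x, dist_comm _ x, pow_one] at h1
  have h2 := step iso hyp a x (by linarith) ha i
  have h3 := step iso hyp a x (by linarith) ha j
  rw [add_assoc i, add_comm 1 j]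
  rcases le_max_iff.1 (sub_le_iff_le_add.2 h1) with h | h <;> linarith

include iso hyp ha in
lemma far (y : X) (hy : dist y x ≤ dist y (a • x)) (j : ℕ) :
    dist y x + dist x (a ^ (j + 1) • x) ≤ dist y (a ^ (j + 1) • x) + (dist x (a • x) + 2 * δ) := by
  have hδ : 0 ≤ δ := by simpa using hyp x x x x
  have h1 := hyp y (a • x) (a ^ (j + 1) • x) x
  have h2 := step iso hyp a x (by linarith) ha j
  rw [pow_succ', mul_smul, iso, ← mul_smul, ← pow_succ', dist_comm _ x, dist_comm _ x] at h1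
  rcases le_max_iff.1 (sub_le_iff_le_add.2 h1) with h | h <;> linarith [dist_comm x y]

include iso hyp ha in
lemma cent {m : ℕ} (hm : 0 < m) (g : G) (hg : Commute (a ^ m) g) :
    ∃ j : ℤ, dist x ((a ^ j * g) • x) ≤ dist x (a • x) + 3 * δ := by
  have hδ : 0 ≤ δ := by simpa using hyp x x x x
  have ha' : 2 * δ + 1 + dist x (a⁻¹ • x) + 2 * δ ≤ dist x (a⁻¹ ^ 2 • x) := by
    rwa [inv_pow, dinv iso, dinv iso]
  have hl := lin iso hyp a x (by linarith) ha
  obtain ⟨j, -, hj⟩ := Set.exists_min_image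
    {j : ℤ | dist x ((a ^ j * g) • x) ≤ dist x (g • x)} (fun j => dist x ((a ^ j * g) • x)) (by
      obtain ⟨n, hn⟩ := exists_nat_ge (2 * dist x (g • x))
      refine (Set.finite_Icc (-n : ℤ) n).subset fun j hj => abs_le.1 ?_
      have h1 := dist_triangle x ((a ^ j * g) • x) (a ^ j • x)
      rw [mul_smul, iso, ← mul_smul, dist_comm _ x] at h1
      have h2 := hl j.natAbs
      have h3 : dist x (a ^ j.natAbs • x) = dist x (a ^ j • x) := by
        rcases Int.natAbs_eq j with h | h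
        · rw [← zpow_natCast, ← h]
        · rw [← dinv iso, ← zpow_natCast, ← zpow_neg, ← h]
      have h4 : dist x ((a ^ j * g) • x) ≤ dist x (g • x) := hj
      have h5 : (j.natAbs : ℝ) ≤ n := by nlinarith [j.natAbs.cast_nonneg (α := ℝ)]
      rw [← Int.natCast_natAbs]
      exact_mod_cast h5) ⟨0, by simp⟩
  refine ⟨j, ?_⟩
  have h1 : ∀ i : ℤ, dist x ((a ^ j * g) • x) ≤ dist x ((a ^ i * g) • x) := fun i => by
    by_cases c : dist x ((a ^ i * g) • x) ≤ dist x (g • x)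
    · exact hj i c
    · exact (hj 0 (by simp)).trans (by simpa using (not_le.1 c).le)
  have hc : Commute (a ^ m) (a ^ j * g) := (((Commute.refl a).pow_left m).zpow_right j).mul_right hg
  have h2 := h1 (-1 + j)
  have h3 := h1 (1 + j)
  rw [zpow_add, mul_assoc, mul_smul _ (a ^ j * g)] at h2 h3
  generalize a ^ j * g = f at *
  obtain ⟨n, hn⟩ := exists_nat_gt (dist x (a • x) + 3 * δ)
  obtain ⟨k, hk⟩ : ∃ k, m * (n + 1) = k + 1 := ⟨m * (n + 1) - 1, by
    have : 0 < m * (n + 1) := Nat.mul_pos hm n.succ_pos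
    omega⟩
  have h4 := far iso hyp a x ha (f • x) (by
    rw [dist_comm, dist_comm _ (a • x), dd iso a, mul_smul]; simpa using h2) k
  have h5 := far iso hyp a⁻¹ x ha' (f • x) (by
    rw [dist_comm, dist_comm _ (a⁻¹ • x), dd iso a⁻¹, mul_smul]; simpa using h3) k
  have h6 := hyp (f • x) (a ^ (k + 1) • x) (a ^ (k + 1) • f • x) x
  have h7 : dist (f • x) (a ^ (k + 1) • f • x) = dist x (a ^ (k + 1) • x) := by
    rw [← mul_smul, ← hk, pow_mul, (hc.pow_left _).eq, mul_smul, iso]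
  have h8 : dist (a ^ (k + 1) • f • x) x = dist (f • x) (a⁻¹ ^ (k + 1) • x) := by
    rw [← iso (a ^ (k + 1))⁻¹, inv_smul_smul, inv_pow]
  have h9 := hl (k + 1)
  have h10 : (n : ℝ) ≤ (k + 1 : ℕ) := by
    rw [← hk]; exact_mod_cast n.le_succ.trans (Nat.le_mul_of_pos_left _ hm)
  rw [h7, h8, iso, dist_comm _ x, dist_comm _ x] at h6
  rw [inv_pow, dinv iso, dinv iso, ← inv_pow] at h5
  rw [dist_comm _ x] at h4 h5
  have h11 : (0 : ℝ) ≤ δ * (k + 1 : ℕ) := by positivity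
  rcases le_max_iff.1 (sub_le_iff_le_add.2 h6) with h | h <;> nlinarith

variable (acy : ∀ ε : ℝ, 0 < ε → ∃ R : ℝ, ∀ x y : X, R ≤ dist x y →
  {h : G | dist x (h • x) ≤ ε ∧ dist y (h • y) ≤ ε}.Finite)

include iso hyp ha acy in
lemma key (g : G) (hg : ∀ m : ℕ, 0 < m → g * a ^ m * g⁻¹ ≠ (a ^ m)⁻¹) :
    ∃ n0 : ℕ, ∀ n, n0 ≤ n → ∃ c : ℝ, 0 < c ∧ ∀ k : ℕ, c * k ≤ dist x ((g * a ^ n) ^ k • x) := by
  have hδ : 0 ≤ δ := by simpa using hyp x x x x
  have hl := lin iso hyp a x (by linarith) ha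
  by_contra! hn
  have h1 : ∀ i : ℕ, dist ((a ^ i)⁻¹ • x) (g • a ^ i • x) ≤
      dist x (a • x) + 6 * δ + 3 * dist x (g • x) := fun i => by
    obtain ⟨n0, h0⟩ := exists_nat_ge (2 * dist x (a ^ i • x) + 3 * dist x (g • x) + 2 * δ + 1)
    obtain ⟨n, c1, c2⟩ := hn (n0 + i)
    have c3 : dist x ((g * a ^ n) ^ 2 • x) < 1 + dist x ((g * a ^ n) • x) + 2 * δ := by
      by_contra! c
      obtain ⟨k, hk⟩ := c2 1 one_pos
      exact hk.not_ge (lin iso hyp _ x one_pos c k)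
    obtain ⟨j, rfl⟩ : ∃ j, n = i + j := ⟨n - i, by omega⟩
    have c4 := add iso hyp a x ha i j
    have c5 := hl (i + j)
    have c6 : (n0 : ℝ) ≤ (i + j : ℕ) := by exact_mod_cast (by omega : n0 ≤ i + j)
    have c7 : (0 : ℝ) ≤ δ * (i + j : ℕ) := by positivity
    have e1 := hyp ((a ^ i)⁻¹ • x) (g • a ^ (i + j) • x) ((a ^ (i + j))⁻¹ • x) x
    have e2 := hyp ((a ^ i)⁻¹ • x) (g • a ^ i • x) (g • a ^ (i + j) • x) x
    have e3 : dist ((a ^ i)⁻¹ • x) ((a ^ (i + j))⁻¹ • x) = dist x (a ^ j • x) := by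
      rw [dd iso, ← dinv iso]; congr 2; group
    have e4 : ∀ n, dist (g • a ^ n • x) x ≤ dist x (a ^ n • x) + dist x (g • x) := fun n => by
      have := dist_triangle (g • a ^ n • x) (g • x) x
      rwa [iso, dist_comm (a ^ n • x) x, dist_comm (g • x)] at this
    have e5 : dist x (a ^ (i + j) • x) ≤ dist (g • a ^ (i + j) • x) x + dist x (g • x) := by
      have := dist_triangle (g • a ^ (i + j) • x) x (g • x)
      rwa [iso, dist_comm _ x] at this
    have e6 := dist_triangle (g • a ^ (i + j) • x) ((g * a ^ (i + j))⁻¹ • x) ((a ^ (i + j))⁻¹ • x)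
    rw [mul_inv_rev, mul_smul, iso, ← mul_smul (a ^ (i + j))⁻¹, ← mul_inv_rev, ← mul_smul g,
      dist_comm _ ((g * a ^ (i + j))⁻¹ • x), dd iso (g * a ^ (i + j))⁻¹, inv_inv, ← pow_two,
      dist_comm _ x, dinv iso, mul_smul] at e6
    rw [mul_smul, dist_comm x (g • _)] at c3
    rw [e3, dist_comm (_⁻¹ • x) x, dist_comm (_⁻¹ • x) x, dinv iso, dinv iso] at e1
    rw [iso, dp iso, dist_comm (_⁻¹ • x) x, dinv iso] at e2
    have := e4 i
    have := e4 (i + j)
    have := dist_nonneg (x := x) (y := a • x)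
    have := dist_nonneg (x := x) (y := g • x)
    rcases le_max_iff.1 (sub_le_iff_le_add.2 e1) with h | h <;>
      rcases le_max_iff.1 (sub_le_iff_le_add.2 e2) with h' | h' <;> linarith
  have h2 : ∀ i k : ℕ, dist ((a ^ i)⁻¹ • x) ((a ^ k * g * a ^ k * g⁻¹) • (a ^ i)⁻¹ • x) ≤
      2 * (dist x (a • x) + 6 * δ + 3 * dist x (g • x)) + 1 := fun i k => by
    have c1 := dist_triangle ((a ^ i)⁻¹ • x) ((a ^ k * g * a ^ k * g⁻¹) • g • a ^ i • x)
      ((a ^ k * g * a ^ k * g⁻¹) • (a ^ i)⁻¹ • x)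
    have c2 := h1 (k + i)
    rw [← iso (a ^ k), smul_smul, smul_smul, smul_smul,
      show a ^ k * (a ^ (k + i))⁻¹ = (a ^ i)⁻¹ by group,
      show a ^ k * g * a ^ (k + i) = a ^ k * g * a ^ k * g⁻¹ * g * a ^ i by group,
      mul_smul _ (a ^ i), mul_smul _ g] at c2
    rw [iso, dist_comm (g • _)] at c1
    linarith [h1 i]
  obtain ⟨R, hR⟩ := acy (2 * (dist x (a • x) + 6 * δ + 3 * dist x (g • x)) + 1) (by positivity)
  obtain ⟨n, hn⟩ := exists_nat_ge R
  have h3 := hR x ((a ^ n)⁻¹ • x) (by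
    rw [dinv iso]
    have c7 : (0 : ℝ) ≤ δ * n := by positivity
    nlinarith [hl n])
  obtain ⟨k, l, hkl, e⟩ := Set.Finite.exists_lt_map_eq_of_forall_mem
    (f := fun k : ℕ => a ^ k * g * a ^ k * g⁻¹) (ht := h3)
    fun k => And.intro (by simpa using h2 0 k) (h2 n k)
  obtain ⟨m, rfl⟩ := Nat.exists_eq_add_of_le hkl.le
  refine hg m (by omega) ?_
  have : a ^ m * (g * a ^ m * g⁻¹) = (a ^ k)⁻¹ * (a ^ (k + m) * g * a ^ (k + m) * g⁻¹) *
    (g * a ^ k * g⁻¹)⁻¹ := by group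
  rw [← e] at this
  rw [eq_inv_iff_mul_eq_one, ← mul_eq_one_comm, this]
  group

def P (m : ℕ) (g : G) : Prop := g * a ^ m * g⁻¹ = a ^ m ∨ g * a ^ m * g⁻¹ = (a ^ m)⁻¹

lemma P.pow {a : G} {m : ℕ} {g : G} (h : P a m g) (k : ℕ) : P a (m * k) g := by
  unfold P
  rw [pow_mul, ← conj_pow]
  rcases h with h | h <;> simp [h]

lemma P.mul {a : G} {m : ℕ} {g g' : G} (h : P a m g) (h' : P a m g') : P a m (g * g') := by
  have e : g * g' * a ^ m * (g * g')⁻¹ = g * (g' * a ^ m * g'⁻¹) * g⁻¹ := by group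
  have e' : g * (a ^ m)⁻¹ * g⁻¹ = (g * a ^ m * g⁻¹)⁻¹ := by group
  unfold P
  rw [e]
  rcases h' with h' | h' <;> rw [h'] <;> rcases h with h | h <;> simp only [e', h] <;> simp

lemma P.inv {a : G} {m : ℕ} {g : G} (h : P a m g) : P a m g⁻¹ := by
  rcases h with h | h
  · left; nth_rw 1 [← h]; group
  · right; rw [← inv_inv (a ^ m), ← h]; nth_rw 2 [h]; group

def E : Subgroup G where
  carrier := {g | ∃ m, 0 < m ∧ P a m g}
  one_mem' := ⟨1, one_pos, .inl (by simp)⟩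
  mul_mem' := fun ⟨m, c, d⟩ ⟨k, c', d'⟩ =>
    ⟨m * k, Nat.mul_pos c c', (d.pow k).mul (mul_comm k m ▸ d'.pow m)⟩
  inv_mem' := fun ⟨m, c, d⟩ => ⟨m, c, d.inv⟩

include iso hyp ha acy in
lemma E_ne (hG : Group.FG G) (hv : ¬ ∃ H : Subgroup G, H.FiniteIndex ∧ IsCyclic H) :
    ∃ s, s ∉ E a := by
  classical
  have hδ : 0 ≤ δ := by simpa using hyp x x x x
  by_contra! hn
  obtain ⟨T, hT⟩ := hG.out
  choose m hm hP using hn
  have h0 : 0 < ∏ t ∈ T, m t := Finset.prod_pos fun t _ => hm t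
  have h1 : ∀ g, P a (∏ t ∈ T, m t) g := fun g => by
    have hg : g ∈ Subgroup.closure (T : Set G) := hT ▸ trivial
    induction hg using Subgroup.closure_induction with
    | mem t ht => rw [← Finset.mul_prod_erase _ _ ht]; exact (hP t).pow _
    | one => exact .inl (by simp)
    | mul _ _ _ _ c d => exact c.mul d
    | inv _ _ c => exact c.inv
  generalize ∏ t ∈ T, m t = k at h0 h1
  obtain ⟨R, hR⟩ := acy (dist x (a • x) + 3 * δ + 1) (by positivity)
  obtain ⟨n, hn⟩ := exists_nat_ge R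
  have h3 := hR x ((a ^ k) ^ n • x) (by
    have c6 : (n : ℝ) ≤ (k * n : ℕ) := by exact_mod_cast Nat.le_mul_of_pos_left _ h0
    have c7 : (0 : ℝ) ≤ δ * (k * n : ℕ) := by positivity
    rw [← pow_mul]
    nlinarith [lin iso hyp a x (by linarith) ha (k * n)])
  generalize hF : {h : G | _} = F at h3
  have h4 : ∀ g, Commute (a ^ k) g → ∃ f ∈ F, (g : G ⧸ Subgroup.zpowers a) = f⁻¹ := fun g hg => by
    obtain ⟨j, hj⟩ := cent iso hyp a x ha h0 g⁻¹ hg.inv_right
    have hc : Commute (a ^ k) (a ^ j * g⁻¹) :=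
      (((Commute.refl a).pow_left k).zpow_right j).mul_right hg.inv_right
    refine ⟨a ^ j * g⁻¹, hF ▸ ⟨by linarith, ?_⟩, QuotientGroup.eq.2 ⟨-j, by group⟩⟩
    rw [← mul_smul, ← (hc.pow_left n).eq, mul_smul, iso]
    linarith
  obtain ⟨g0, h5⟩ : ∃ g0 : G, ∀ g, Commute (a ^ k) g ∨ Commute (a ^ k) (g0⁻¹ * g) := by
    have h6 : ∀ g, g * a ^ k * g⁻¹ = a ^ k → Commute (a ^ k) g := fun g e =>
      (mul_inv_eq_iff_eq_mul.1 e).symm
    by_cases c : ∀ g, Commute (a ^ k) g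
    · exact ⟨1, fun g => .inl (c g)⟩
    obtain ⟨g0, c⟩ := not_forall.1 c
    refine ⟨g0, fun g => (h1 g).imp (h6 g) fun e => h6 _ ?_⟩
    have e' := (h1 g0).resolve_left fun e => c (h6 _ e)
    rw [show g0⁻¹ * g * a ^ k * (g0⁻¹ * g)⁻¹ = g0⁻¹ * (g * a ^ k * g⁻¹) * g0 by group, e, ← e']
    group
  refine hv ⟨Subgroup.zpowers a, ?_, inferInstance⟩
  have : Finite (G ⧸ Subgroup.zpowers a) := by
    refine Set.finite_univ_iff.1 (((h3.image fun f => ((f⁻¹ : G) : G ⧸ Subgroup.zpowers a)).union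
      (h3.image fun f => ((g0 * f⁻¹ : G) : G ⧸ Subgroup.zpowers a))).subset ?_)
    rintro ⟨g⟩ -
    rcases h5 g with c | c
    · obtain ⟨f, c1, c2⟩ := h4 g c
      exact .inl ⟨f, c1, c2.symm⟩
    · obtain ⟨f, c1, c2⟩ := h4 _ c
      refine .inr ⟨f, c1, QuotientGroup.eq.2 ?_⟩
      simpa [mul_assoc] using QuotientGroup.eq.1 c2.symm
  exact Subgroup.finiteIndex_of_finite_quotient

include iso hyp ha acy in
lemma build (T : Finset G) (hT : ∀ t ∈ T, t ∉ E a) : ∃ S : Finset G, a ∈ S ∧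
    (∀ t ∈ T, t ∈ Subgroup.closure (S : Set G)) ∧ (∀ s ∈ S, s = a ∨ s ∉ E a) ∧
    (∀ s ∈ S, ∃ c : ℝ, 0 < c ∧ ∀ k : ℕ, c * k ≤ dist x (s ^ k • x)) ∧
    ∀ s ∈ S, ∀ t ∈ S, s ≠ t → s * t ≠ t * s := by
  classical
  have hδ : 0 ≤ δ := by simpa using hyp x x x x
  have hl := lin iso hyp a x (by linarith) ha
  have haE : a ∈ E a := ⟨1, one_pos, .inl (by simp)⟩
  have hE : ∀ s m, 0 < m → Commute s (a ^ m) → s ∈ E a := fun s m hm h =>
    ⟨m, hm, .inl (by rw [h.eq]; simp)⟩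
  induction T using Finset.induction_on with
  | empty => exact ⟨{a}, by simp, by simp, by simp, by simpa using ⟨_, by linarith, hl⟩, by simp⟩
  | insert t T _ ih =>
    obtain ⟨S, h1, h2, h3, h4, h5⟩ := ih fun s hs => hT s (by simp [hs])
    have ht : t ∉ E a := hT t (by simp)
    obtain ⟨n0, h6⟩ := key iso hyp a x ha acy t fun m hm e => ht ⟨m, hm, .inr e⟩
    have h7 : (⋃ s ∈ S, {n : ℕ | Commute s (t * a ^ n)}).Finite :=
      S.finite_toSet.biUnion fun s hs => Set.Subsingleton.finite fun n hn m hm => by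
        rcases h3 s hs with rfl | c
        · exact (ht (hE t 1 one_pos (by
            simpa using (Commute.mul_right hn ((Commute.refl s).pow_right n).inv_right).symm))).elim
        · by_contra d
          wlog hlt : n < m generalizing n m
          · exact this m hm n hn (Ne.symm d) (by omega)
          obtain ⟨k, rfl⟩ := Nat.exists_eq_add_of_le hlt.le
          refine c (hE s k (by omega) ?_)
          have := Commute.mul_right (Commute.inv_right hn) hm
          rwa [show (t * a ^ n)⁻¹ * (t * a ^ (n + k)) = a ^ k by group] at this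
    obtain ⟨n, c1, c2⟩ := ((Set.Ici_infinite n0).sdiff h7).nonempty
    simp only [Set.mem_iUnion, not_exists] at c2
    have h8 : Subgroup.closure (S : Set G) ≤ Subgroup.closure (insert (t * a ^ n) S : Finset G) :=
      Subgroup.closure_mono (by simp)
    refine ⟨insert (t * a ^ n) S, by simp [h1], Finset.forall_mem_insert .. |>.2 ⟨?_, fun s hs =>
      h8 (h2 s hs)⟩, Finset.forall_mem_insert .. |>.2 ⟨.inr fun c => ht ?_, h3⟩,
      Finset.forall_mem_insert .. |>.2 ⟨h6 n c1, h4⟩, ?_⟩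
    · exact (mul_mem_cancel_right (pow_mem (h8 (Subgroup.subset_closure h1)) n)).1
        (Subgroup.subset_closure (by simp))
    · exact (mul_mem_cancel_right (pow_mem haE n)).1 c
    · simp only [Finset.forall_mem_insert]
      exact ⟨⟨fun c => (c rfl).elim, fun s hs _ e => c2 s hs e.symm⟩,
        fun s hs => ⟨fun _ e => c2 s hs e, h5 s hs⟩⟩

include iso hyp ha acy in
lemma main (hG : Group.FG G) (hv : ¬ ∃ H : Subgroup G, H.FiniteIndex ∧ IsCyclic H) :
    ∃ S : Finset G, Subgroup.closure (S : Set G) = ⊤ ∧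
    (∀ s ∈ S, ∃ c : ℝ, 0 < c ∧ ∀ k : ℕ, c * k ≤ dist x (s ^ k • x)) ∧
    ∀ s ∈ S, ∀ t ∈ S, s ≠ t → s * t ≠ t * s := by
  classical
  obtain ⟨s0, h0⟩ := E_ne iso hyp a x ha acy hG hv
  obtain ⟨T, hT⟩ := hG.out
  obtain ⟨S, -, h2, -, h4, h5⟩ := build iso hyp a x ha acy
    (insert s0 (T.image fun t => if t ∈ E a then t * s0 else t)) (by
      simp only [Finset.forall_mem_insert, Finset.forall_mem_image]
      refine ⟨h0, fun t _ => ?_⟩
      split_ifs with c
      · rwa [mul_mem_cancel_left c]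
      · exact c)
  refine ⟨S, eq_top_iff.2 (hT ▸ (Subgroup.closure_le _).2 fun t ht => ?_), h4, h5⟩
  have := h2 _ (Finset.mem_insert_of_mem (Finset.mem_image_of_mem _ ht))
  split_ifs at this
  · exact (mul_mem_cancel_right (h2 s0 (by simp))).1 this
  · exact this

end Pool.Agent.H.MP_10a497_al
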